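import Pool.Agent.Thin.Generic

/-!
# Thin chains: the generic condition holds off finitely many hyperplanes

The condition `Generic` fails only on the zero set of finitely many bilinear forms in the lengths
and the angle ratios; for positive ratios (lengths) they are nonzero linear forms in the lengths
(ratios).
-/

set_option autoImplicit false

namespace Pool.Agent.ThinH

open Real Finset Pool.Agent.Lib_helper54.Flat Pool.Agent.Thin

/-- `1` if `a < b` and `0` otherwise -/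
noncomputable def ind (a b : ℕ) : ℝ := if a < b then 1 else 0

theorem ind_of_lt {a b : ℕ} (h : a < b) : ind a b = 1 := if_pos h

theorem ind_of_le {a b : ℕ} (h : b ≤ a) : ind a b = 0 := if_neg (Nat.not_lt.2 h)

theorem sum_ind {n v : ℕ} (hv : v ≤ n) (f : ℕ → ℝ) :
    ∑ m ∈ range n, ind m v * f m = ∑ m ∈ range v, f m := by
  rw [← Finset.sum_subset (Finset.range_mono hv)]
  · refine Finset.sum_congr rfl fun m hm => ?_
    rw [ind_of_lt (mem_range.1 hm), one_mul]
  · intro m _ hm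
    rw [mem_range, not_lt] at hm
    rw [ind_of_le hm, zero_mul]

/-- the slope of link `k` -/
noncomputable def cc (s a : ℕ → ℝ) (k : ℕ) : ℝ := ∑ j ∈ range k, s j * a j

/-- the bilinear form in `ℓ` and `a` -/
noncomputable def bil (n : ℕ) (ℓ a : ℕ → ℝ) (fold : ℕ → Bool) (s : ℕ → ℝ) (v i : ℕ) : ℝ :=
  ∑ m ∈ range n, (ind m v - ind m i) * (side fold m * ℓ m * (cc s a m - cc s a i))

theorem bil_eq {n : ℕ} (ℓ a : ℕ → ℝ) (fold : ℕ → Bool) (s : ℕ → ℝ) {v i : ℕ} (hv : v ≤ n)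
    (hi : i ≤ n) : bil n ℓ a fold s v i =
      ((lim ℓ a fold s v).2 - (lim ℓ a fold s i).2) -
        cc s a i * ((lim ℓ a fold s v).1 - (lim ℓ a fold s i).1) := by
  unfold bil lim
  simp only [sub_mul]
  rw [Finset.sum_sub_distrib, sum_ind hv, sum_ind hi]
  simp only [mul_sub, Finset.sum_sub_distrib, cc]
  rw [Finset.mul_sum, Finset.mul_sum]
  have e : ∀ t : Finset ℕ, ∑ m ∈ t, side fold m * ℓ m * ∑ j ∈ range i, s j * a j =
      ∑ m ∈ t, (∑ j ∈ range i, s j * a j) * (side fold m * ℓ m) := fun t =>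
    Finset.sum_congr rfl fun m _ => mul_comm _ _
  rw [e, e]
  ring

theorem bil_zero {n : ℕ} {ℓ a : ℕ → ℝ} {fold : ℕ → Bool} {s : ℕ → ℝ} {v i : ℕ} (hv : v ≤ n)
    (hi : i ≤ n)
    (h : lim ℓ a fold s v ∈ segment ℝ (lim ℓ a fold s i) (lim ℓ a fold s (i + 1))) :
    bil n ℓ a fold s v i = 0 := by
  rw [segment_eq_image'] at h
  obtain ⟨θ, -, hθ⟩ := h
  have h1 := congrArg Prod.fst hθ
  have h2 := congrArg Prod.snd hθ
  simp only [Prod.fst_add, Prod.snd_add, Prod.smul_fst, Prod.smul_snd, Prod.fst_sub, Prod.snd_sub,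
    smul_eq_mul] at h1 h2
  have e1 : (lim ℓ a fold s (i + 1)).1 - (lim ℓ a fold s i).1 = side fold i * ℓ i := by
    simp only [lim, Finset.sum_range_succ]
    ring
  have e2 : (lim ℓ a fold s (i + 1)).2 - (lim ℓ a fold s i).2 =
      side fold i * ℓ i * cc s a i := by
    simp only [lim, Finset.sum_range_succ, cc]
    ring
  rw [bil_eq ℓ a fold s hv hi, ← h1, ← h2, e1, e2]
  ring

/-- the linear form in `ℓ` -/
noncomputable def hL (n : ℕ) (a : ℕ → ℝ) (fold : ℕ → Bool) (s : ℕ → ℝ) (v i : ℕ) : Fin n → ℝ :=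
  fun k => (ind k v - ind k i) * (side fold k * (cc s a k - cc s a i))

theorem hL_eq (n : ℕ) (ℓ a : ℕ → ℝ) (fold : ℕ → Bool) (s : ℕ → ℝ) (v i : ℕ) :
    ∑ k : Fin n, hL n a fold s v i k * ℓ k = bil n ℓ a fold s v i := by
  unfold bil hL
  rw [← Fin.sum_univ_eq_sum_range
    (fun m => (ind m v - ind m i) * (side fold m * ℓ m * (cc s a m - cc s a i))) n]
  refine Finset.sum_congr rfl fun k _ => ?_
  ring

theorem side_ne (fold : ℕ → Bool) (m : ℕ) : side fold m ≠ 0 := by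
  induction m with
  | zero => exact one_ne_zero
  | succ m ih =>
    unfold side
    split_ifs
    · exact neg_ne_zero.2 ih
    · exact ih

theorem hL_ne {n : ℕ} {a : ℕ → ℝ} (fold : ℕ → Bool) {s : ℕ → ℝ} {v i : ℕ}
    (ha : ∀ k, k + 2 ≤ n → 0 < a k) (hs : ∀ k, s k = 1 ∨ s k = -1) (hv : v ≤ n) (hi : i < n)
    (h1 : v ≠ i) (h2 : v ≠ i + 1) : hL n a fold s v i ≠ 0 := by
  have hs0 : ∀ k, s k ≠ 0 := fun k => by
    rcases hs k with h | h <;> rw [h] <;> norm_num
  intro h0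
  rcases lt_or_gt_of_ne h1 with h | h
  · -- `v < i`
    have h3 := congrFun h0 ⟨i - 1, by omega⟩
    simp only [hL, Pi.zero_apply] at h3
    rw [ind_of_le (by omega : v ≤ i - 1), ind_of_lt (by omega : i - 1 < i)] at h3
    obtain ⟨t, rfl⟩ : ∃ t, i = t + 1 := ⟨i - 1, by omega⟩
    have e : t + 1 - 1 = t := rfl
    rw [e] at h3
    simp only [cc, Finset.sum_range_succ] at h3
    have h4 : side fold t * (s t * a t) = 0 := by linarith
    have := (ha t (by omega)).ne'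
    exact (mul_ne_zero (side_ne fold t) (mul_ne_zero (hs0 t) this)) h4
  · -- `i + 1 < v`
    have h3 := congrFun h0 ⟨i + 1, by omega⟩
    simp only [hL, Pi.zero_apply] at h3
    rw [ind_of_lt (by omega : i + 1 < v), ind_of_le (by omega : i ≤ i + 1)] at h3
    simp only [cc, Finset.sum_range_succ] at h3
    have h4 : side fold (i + 1) * (s i * a i) = 0 := by linarith
    have := (ha i (by omega)).ne'
    exact (mul_ne_zero (side_ne fold (i + 1)) (mul_ne_zero (hs0 i) this)) h4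

/-- the linear form in `a` -/
noncomputable def hA (n : ℕ) (ℓ : ℕ → ℝ) (fold : ℕ → Bool) (s : ℕ → ℝ) (v i : ℕ) :
    Fin (n - 1) → ℝ :=
  fun j => ∑ m ∈ range n, (ind m v - ind m i) * (side fold m * ℓ m * ((ind j m - ind j i) * s j))

theorem cc_ind {n m : ℕ} (hm : m ≤ n - 1) (s a : ℕ → ℝ) :
    cc s a m = ∑ j : Fin (n - 1), ind j m * (s j * a j) := by
  rw [Fin.sum_univ_eq_sum_range (fun j => ind j m * (s j * a j)) (n - 1), sum_ind hm]
  rfl

theorem hA_eq {n : ℕ} (ℓ a : ℕ → ℝ) (fold : ℕ → Bool) (s : ℕ → ℝ) (v : ℕ) {i : ℕ} (hi : i < n) :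
    ∑ j : Fin (n - 1), hA n ℓ fold s v i j * a j = bil n ℓ a fold s v i := by
  unfold bil hA
  simp only [Finset.sum_mul]
  rw [Finset.sum_comm]
  refine Finset.sum_congr rfl fun m hm => ?_
  have hm' := mem_range.1 hm
  rw [cc_ind (by omega : m ≤ n - 1), cc_ind (by omega : i ≤ n - 1), ← Finset.sum_sub_distrib,
    Finset.mul_sum, Finset.mul_sum]
  refine Finset.sum_congr rfl fun j _ => ?_
  ring

theorem hA_ne {n : ℕ} {ℓ : ℕ → ℝ} (fold : ℕ → Bool) {s : ℕ → ℝ} {v i : ℕ}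
    (hl : ∀ k, k < n → 0 < ℓ k) (hs : ∀ k, s k = 1 ∨ s k = -1) (hv : v ≤ n) (hi : i < n)
    (h1 : v ≠ i) (h2 : v ≠ i + 1) : hA n ℓ fold s v i ≠ 0 := by
  have hs0 : ∀ k, s k ≠ 0 := fun k => by
    rcases hs k with h | h <;> rw [h] <;> norm_num
  intro h0
  rcases lt_or_gt_of_ne h1 with h | h
  · -- `v < i`
    have h3 := congrFun h0 ⟨v, by omega⟩
    simp only [hA, Pi.zero_apply] at h3
    rw [Finset.sum_eq_single v] at h3
    · rw [ind_of_le (le_refl v), ind_of_lt h] at h3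
      have h4 : side fold v * ℓ v * s v = 0 := by linarith
      exact (mul_ne_zero (mul_ne_zero (side_ne fold v) (hl v (by omega)).ne') (hs0 v)) h4
    · intro m _ hm
      rcases lt_or_gt_of_ne hm with h5 | h5
      · rw [ind_of_lt h5, ind_of_lt (by omega : m < i)]
        ring
      · rw [ind_of_lt (by omega : v < m), ind_of_lt h]
        ring
    · intro hm
      exact absurd (mem_range.2 (by omega : v < n)) hm
  · -- `i + 1 < v`
    have h3 := congrFun h0 ⟨v - 2, by omega⟩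
    simp only [hA, Pi.zero_apply] at h3
    rw [Finset.sum_eq_single (v - 1)] at h3
    · rw [ind_of_lt (by omega : v - 1 < v), ind_of_le (by omega : i ≤ v - 1),
        ind_of_lt (by omega : v - 2 < v - 1), ind_of_le (by omega : i ≤ v - 2)] at h3
      have h4 : side fold (v - 1) * ℓ (v - 1) * s (v - 2) = 0 := by linarith
      exact (mul_ne_zero (mul_ne_zero (side_ne fold (v - 1)) (hl (v - 1) (by omega)).ne')
        (hs0 (v - 2))) h4
    · intro m _ hm
      rw [ind_of_le (by omega : i ≤ v - 2)]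
      rcases lt_or_gt_of_ne hm with h5 | h5
      · rw [ind_of_le (by omega : m ≤ v - 2)]
        ring
      · rw [ind_of_le (by omega : v ≤ m), ind_of_le (by omega : i ≤ m)]
        ring
    · intro hm
      exact absurd (mem_range.2 (by omega : v - 1 < n)) hm

/-- every sign sequence may be replaced by one of finitely many -/
theorem bil_sv {n : ℕ} (ℓ a : ℕ → ℝ) (fold : ℕ → Bool) {s : ℕ → ℝ}
    (hs : ∀ k, s k = 1 ∨ s k = -1) :
    ∃ τ : Fin n → Bool, ∀ v i : ℕ, i < n →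
      bil n ℓ a fold s v i = bil n ℓ a fold (sv n τ) v i := by
  obtain ⟨τ, hτ⟩ := exists_sv (n := n) hs
  have e : ∀ k, k ≤ n → cc s a k = cc (sv n τ) a k := fun k hk => by
    unfold cc
    refine Finset.sum_congr rfl fun j hj => ?_
    rw [hτ j (by have := mem_range.1 hj; omega)]
  refine ⟨τ, fun v i hi => ?_⟩
  unfold bil
  refine Finset.sum_congr rfl fun m hm => ?_
  rw [e m (mem_range.1 hm).le, e i hi.le]

/-- For positive ratios `a` the condition `Generic` holds for all lengths off finitely many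
hyperplanes. -/
theorem generic_len (n : ℕ) (fold : ℕ → Bool) (a : ℕ → ℝ) (ha : ∀ k, k + 2 ≤ n → 0 < a k) :
    ∃ H : Finset (Fin n → ℝ), (∀ h ∈ H, h ≠ 0) ∧
      ∀ ℓ : ℕ → ℝ, (∀ h ∈ H, ∑ k : Fin n, h k * ℓ k ≠ 0) → Generic n ℓ a fold := by
  classical
  refine ⟨((Finset.univ : Finset ((Fin n → Bool) × Fin (n + 1) × Fin n)).filter
    (fun t => t.2.1.val ≠ t.2.2.val ∧ t.2.1.val ≠ t.2.2.val + 1)).image
    (fun t => hL n a fold (sv n t.1) t.2.1 t.2.2), ?_, ?_⟩
  · intro h hh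
    obtain ⟨t, ht, rfl⟩ := Finset.mem_image.1 hh
    obtain ⟨-, h1, h2⟩ := Finset.mem_filter.1 ht
    exact hL_ne fold ha (sv_cases n t.1) (by have := t.2.1.isLt; omega) t.2.2.isLt h1 h2
  · intro ℓ hℓ s hs v i hv hi h1 h2 hmem
    obtain ⟨τ, hτ⟩ := bil_sv (n := n) ℓ a fold hs
    have h3 := bil_zero hv hi.le hmem
    rw [hτ v i hi, ← hL_eq] at h3
    refine hℓ _ (Finset.mem_image.2 ⟨(τ, ⟨v, by omega⟩, ⟨i, hi⟩), ?_, rfl⟩) h3
    exact Finset.mem_filter.2 ⟨Finset.mem_univ _, h1, h2⟩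

/-- For positive lengths the condition `Generic` holds for all ratios `a` off finitely many
hyperplanes. -/
theorem generic_ang (n : ℕ) (fold : ℕ → Bool) (ℓ : ℕ → ℝ) (hl : ∀ k, k < n → 0 < ℓ k) :
    ∃ H : Finset (Fin (n - 1) → ℝ), (∀ h ∈ H, h ≠ 0) ∧
      ∀ a : ℕ → ℝ, (∀ h ∈ H, ∑ k : Fin (n - 1), h k * a k ≠ 0) → Generic n ℓ a fold := by
  classical
  refine ⟨((Finset.univ : Finset ((Fin n → Bool) × Fin (n + 1) × Fin n)).filter
    (fun t => t.2.1.val ≠ t.2.2.val ∧ t.2.1.val ≠ t.2.2.val + 1)).image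
    (fun t => hA n ℓ fold (sv n t.1) t.2.1 t.2.2), ?_, ?_⟩
  · intro h hh
    obtain ⟨t, ht, rfl⟩ := Finset.mem_image.1 hh
    obtain ⟨-, h1, h2⟩ := Finset.mem_filter.1 ht
    exact hA_ne fold hl (sv_cases n t.1) (by have := t.2.1.isLt; omega) t.2.2.isLt h1 h2
  · intro a hA' s hs v i hv hi h1 h2 hmem
    obtain ⟨τ, hτ⟩ := bil_sv (n := n) ℓ a fold hs
    have h3 := bil_zero hv hi.le hmem
    rw [hτ v i hi, ← hA_eq ℓ a fold (sv n τ) v hi] at h3
    refine hA' _ (Finset.mem_image.2 ⟨(τ, ⟨v, by omega⟩, ⟨i, hi⟩), ?_, rfl⟩) h3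
    exact Finset.mem_filter.2 ⟨Finset.mem_univ _, h1, h2⟩

end Pool.Agent.ThinH
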